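import Mathlib
import Pool.Agent.H77.MV.EvasiveCURProof

/-! ### The reduced Euler characteristic vanishes on non-evasive complexes -/

set_option autoImplicit false

namespace Pool.Agent.Results.MP_fcbbae_co.EvasiveCUR

/-- There is a simplicial complex on `7` vertices which is `2`-convex union representable and
is not non-evasive. -/
theorem result : ∃ Δ : Set (Finset (Fin 7)),
    ConvexUnionRepresentable 2 Δ ∧ (∀ v, {v} ∈ Δ) ∧ ¬ NonEvasive Δ :=
  result_proof

end Pool.Agent.Results.MP_fcbbae_co.EvasiveCUR
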